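import Pool.Agent.Lib.MP_b07a8a_nt.Mg.G001
import Pool.Agent.Lib.MP_b07a8a_nt.Mg.G002

/-! MP_94fdc2_nt: a Brun-Hooley sieve on intervals of any length, and the base residue. -/

set_option autoImplicit false

open Finset

namespace Pool.Agent.MP_94fdc2_nt

open Pool.Agent.SievePar

theorem sv_mono (S : ℕ → Finset ℕ) (z : ℕ) {y Y : ℕ} (h : y ≤ Y) : sv S z y ⊆ sv S z Y := by
  intro s hs
  rw [mem_sv] at hs ⊢
  exact ⟨by omega, hs.2⟩

/-- `sieve_count` with the number `m` given. -/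
theorem sieve_count_m (k l₀ m : ℕ) (hk : 2 * k + 1 ≤ 2 ^ 2 ^ l₀)
    (hm : 2 * Real.exp (16 * k) < 4 ^ m) (R : ℕ)
    (hR : 2 * ((R : ℝ) + 2) * Real.exp (8 * k * R) ≤ 2 ^ (2 ^ R * (8 * m + 12))) :
    ∀ S : ℕ → Finset ℕ, (∀ p, S p ⊆ range p) → (∀ p, (S p).card ≤ k) →
      (∀ p, p ≤ 2 ^ 2 ^ l₀ → S p = ∅) →
      2 ^ (2 ^ R * (8 * m + 12)) ≤
        (sv S (2 ^ 2 ^ R) (2 ^ (2 ^ R * (16 * m + 24)))).card := by
  intro S hS hSk hS0
  have h1 := brun_hooley (R := R) (fun j => blk j) (fun j p hp => (mem_blk.1 hp).2.2)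
    (fun i j hij => disjoint_blk (fun h => hij (Fin.ext h))) S hS
    (fun j => m + (R - 1 - j)) (2 ^ (2 ^ R * (16 * m + 24)))
  have h2 := main_term hk hm.le hSk hS0 R
  have h3 := prod_AA_le hk hSk hS0 m R
  have h4 := hR
  set N : ℝ := 2 ^ (2 ^ R * (8 * m + 12)) with hN
  have hN1 : (1 : ℝ) ≤ N := one_le_pow₀ (by norm_num)
  have hy : ((2 ^ (2 ^ R * (16 * m + 24)) : ℕ) : ℝ) = N * N := by
    rw [hN, ← pow_add]
    push_cast
    congr 1
    ring
  -- the filtered set is contained in `sv`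
  have h5 : (((range (2 ^ (2 ^ R * (16 * m + 24)))).filter fun s =>
      ∀ j : Fin R, ∀ p ∈ blk j, s % p ∉ S p)).card ≤
      (sv S (2 ^ 2 ^ R) (2 ^ (2 ^ R * (16 * m + 24)))).card := by
    refine Finset.card_le_card fun s hs => ?_
    rw [Finset.mem_filter, Finset.mem_range] at hs
    rw [mem_sv]
    refine ⟨hs.1, fun p hp hpR => ?_⟩
    rcases Nat.lt_or_ge 2 p with h6 | h6
    · obtain ⟨j, hj, hpj⟩ := exists_blk hp h6 hpR
      exact hs.2 ⟨j, hj⟩ p hpj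
    · have h7 : p ≤ 2 ^ 2 ^ l₀ := by
        refine h6.trans ?_
        calc 2 = 2 ^ 1 := rfl
          _ ≤ 2 ^ 2 ^ l₀ := Nat.pow_le_pow_right (by norm_num) Nat.one_le_two_pow
      rw [hS0 p h7]
      exact Finset.notMem_empty _
  have h6 : N ≤ ((sv S (2 ^ 2 ^ R) (2 ^ (2 ^ R * (16 * m + 24)))).card : ℝ) := by
    refine le_trans ?_ (h1.trans (by exact_mod_cast h5))
    rw [hy]
    have h7 : N * N * ((1 / 2 : ℝ) * Real.exp (-(8 * k * R))) ≤ N * N *
      (∏ j : Fin R, TT (blk j) (2 * (m + (R - 1 - j))) (wt S) -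
        ∑ l : Fin R, EE (blk l) (2 * (m + (R - 1 - l)) + 1) (wt S) *
          ∏ j ∈ univ.erase l, TT (blk j) (2 * (m + (R - 1 - j))) (wt S)) :=
      mul_le_mul_of_nonneg_left h2 (by positivity)
    have h8 : ((R : ℝ) + 1) * ∏ j : Fin R, AA S (blk j) (2 * (m + (R - 1 - j)) + 1) ≤
        ((R : ℝ) + 1) * N := mul_le_mul_of_nonneg_left h3 (by positivity)
    have h9 : ((R : ℝ) + 2) * N ≤ N * N * ((1 / 2 : ℝ) * Real.exp (-(8 * k * R))) := by
      have h10 : 2 * ((R : ℝ) + 2) * Real.exp (8 * k * R) ≤ N := h4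
      have h11 : Real.exp (8 * k * R) * Real.exp (-(8 * k * R)) = 1 := by
        rw [← Real.exp_add, add_neg_cancel, Real.exp_zero]
      have h12 : 0 < Real.exp (-(8 * k * R)) := Real.exp_pos _
      have h13 : 2 * ((R : ℝ) + 2) ≤ N * Real.exp (-(8 * k * R)) := by
        calc 2 * ((R : ℝ) + 2) = 2 * ((R : ℝ) + 2) * (Real.exp (8 * k * R) *
              Real.exp (-(8 * k * R))) := by rw [h11, mul_one]
          _ = 2 * ((R : ℝ) + 2) * Real.exp (8 * k * R) * Real.exp (-(8 * k * R)) := by ring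
          _ ≤ N * Real.exp (-(8 * k * R)) := mul_le_mul_of_nonneg_right h10 h12.le
      have h14 : 2 * ((R : ℝ) + 2) * N ≤ N * Real.exp (-(8 * k * R)) * N :=
        mul_le_mul_of_nonneg_right h13 (by linarith)
      nlinarith [h14]
    linarith
  rw [hN] at h6
  exact_mod_cast h6

theorem exp_bound : 2 * Real.exp (16 * (2 : ℕ)) < 4 ^ 24 := by
  have h1 : Real.exp (16 * (2 : ℕ)) = Real.exp 1 ^ 32 := by
    rw [← Real.exp_nat_mul]
    norm_num
  have h2 : Real.exp 1 < 2.7182818286 := Real.exp_one_lt_d9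
  have h3 : Real.exp 1 ^ 32 < 2.7182818286 ^ 32 :=
    pow_lt_pow_left₀ h2 (Real.exp_pos _).le (by norm_num)
  rw [h1]
  have h4 : (2 : ℝ) * 2.7182818286 ^ 32 < 4 ^ 24 := by norm_num
  linarith

theorem level (R : ℕ) : 2 * ((R : ℝ) + 2) * Real.exp (8 * (2 : ℕ) * R) ≤
    2 ^ (2 ^ R * (8 * 24 + 12)) := by
  have h5 : (2 : ℝ) * ((R : ℝ) + 2) ≤ Real.exp (R + 2) := by
    have h6 : (R : ℝ) + 2 ≤ Real.exp (R + 1) := by
      have := Real.add_one_le_exp ((R : ℝ) + 1)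
      linarith
    have h7 : (2 : ℝ) ≤ Real.exp 1 := by
      have := Real.add_one_le_exp (1 : ℝ)
      linarith
    have h8 : Real.exp ((R : ℝ) + 2) = Real.exp 1 * Real.exp (R + 1) := by
      rw [← Real.exp_add]; ring_nf
    rw [h8]
    exact mul_le_mul h7 h6 (by positivity) (Real.exp_pos _).le
  have h9 : Real.exp 1 ≤ 2 ^ 2 := by
    have := Real.exp_one_lt_d9
    norm_num
    linarith
  calc 2 * ((R : ℝ) + 2) * Real.exp (8 * (2 : ℕ) * R)
      ≤ Real.exp (R + 2) * Real.exp (8 * (2 : ℕ) * R) :=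
        mul_le_mul_of_nonneg_right h5 (Real.exp_pos _).le
    _ = Real.exp (((17 * R + 2 : ℕ) : ℝ) * 1) := by
        rw [← Real.exp_add]
        congr 1
        push_cast
        ring
    _ = Real.exp 1 ^ (17 * R + 2) := by rw [Real.exp_nat_mul]
    _ ≤ (2 ^ 2) ^ (17 * R + 2) := pow_le_pow_left₀ (Real.exp_pos _).le h9 _
    _ = 2 ^ (2 * (17 * R + 2)) := by rw [← pow_mul]
    _ ≤ 2 ^ (2 ^ R * (8 * 24 + 12)) := by
        refine pow_le_pow_right₀ (by norm_num) ?_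
        have h1 : R < 2 ^ R := Nat.lt_two_pow_self
        omega

/-- the sieve for an arbitrary length `Y` -/
theorem sieve_len (S : ℕ → Finset ℕ) (hS : ∀ p, S p ⊆ range p) (hSk : ∀ p, (S p).card ≤ 2)
    (hS0 : ∀ p, p ≤ 16 → S p = ∅) (Y : ℕ) (hY : 2 ^ 408 ≤ Y) :
    ∃ z : ℕ, 2 ≤ z ∧ Y < z ^ 816 ∧ z ^ 204 ≤ (sv S z Y).card := by
  have h := fun R : ℕ => sieve_count_m 2 2 24 (by norm_num) exp_bound R (level R) S hS hSk hS0
  have hex : ∃ R, Y < 2 ^ (2 ^ R * 408) := by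
    refine ⟨Y, ?_⟩
    have h1 : Y < 2 ^ Y := Nat.lt_two_pow_self
    have h2 : Y ≤ 2 ^ Y * 408 := by omega
    exact h1.trans_le (Nat.pow_le_pow_right (by norm_num) h2)
  have hspec := Nat.find_spec hex
  have hmin := fun {R : ℕ} (hR : R < Nat.find hex) => Nat.find_min hex hR
  obtain ⟨R1, hR1⟩ : ∃ R1, R1 = Nat.find hex := ⟨_, rfl⟩
  rw [← hR1] at hspec
  have hR0 : 0 < R1 := by
    rcases Nat.eq_zero_or_pos R1 with h0 | h0
    · exfalso
      rw [h0] at hspec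
      have h3 : 2 ^ (2 ^ 0 * 408) = 2 ^ 408 := by rw [pow_zero, one_mul]
      rw [h3] at hspec
      exact absurd hY (not_le.mpr hspec)
    · exact h0
  obtain ⟨R, hR⟩ : ∃ R, R1 = R + 1 := ⟨R1 - 1, by omega⟩
  have hlow : 2 ^ (2 ^ R * 408) ≤ Y := by
    have h4 := hmin (R := R) (by omega)
    exact not_lt.mp h4
  refine ⟨2 ^ 2 ^ R, ?_, ?_, ?_⟩
  · calc 2 = 2 ^ 1 := by norm_num
      _ ≤ 2 ^ 2 ^ R := Nat.pow_le_pow_right (by norm_num) Nat.one_le_two_pow
  · rw [hR] at hspec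
    rw [← pow_mul]
    have h5 : 2 ^ (R + 1) * 408 = 2 ^ R * 816 := by ring
    rw [← h5]
    exact hspec
  · have h6 := h R
    have h7 := Finset.card_le_card (sv_mono S (2 ^ 2 ^ R) hlow)
    have h8 : (2 ^ 2 ^ R) ^ 204 = 2 ^ (2 ^ R * (8 * 24 + 12)) := by
      rw [← pow_mul]
    have h9 : 2 ^ R * (16 * 24 + 24) = 2 ^ R * 408 := by norm_num
    rw [h9] at h6
    exact h8.le.trans (h6.trans h7)

/-- one residue modulo `30030` from residues modulo the primes up to `16` -/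
theorem exists_base (a : ℕ → ℕ) :
    ∃ x0 : ℕ, x0 < 30030 ∧ ∀ p : ℕ, p.Prime → p ≤ 16 → x0 ≡ a p [MOD p] := by
  classical
  have hpp : Set.Pairwise (((range 17).filter Nat.Prime : Finset ℕ) : Set ℕ)
      (Function.onFun Nat.Coprime (fun p : ℕ => p)) := by
    intro p hp q hq hpq
    have hp2 := (Finset.mem_filter.mp (Finset.mem_coe.mp hp)).2
    have hq2 := (Finset.mem_filter.mp (Finset.mem_coe.mp hq)).2
    exact (Nat.coprime_primes hp2 hq2).mpr hpq
  obtain ⟨x, hx⟩ := Nat.chineseRemainderOfFinset a (fun p : ℕ => p) ((range 17).filter Nat.Prime)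
    (fun p hp => (Finset.mem_filter.mp hp).2.ne_zero) hpp
  refine ⟨x % 30030, Nat.mod_lt _ (by norm_num), fun p hp h16 => ?_⟩
  have h1 := hx p (by rw [Finset.mem_filter, Finset.mem_range]; exact ⟨by omega, hp⟩)
  have h2 : p ∣ 30030 := by
    interval_cases p <;> first | decide | (exfalso; revert hp; norm_num)
  have h3 : x % 30030 ≡ x [MOD p] := by
    have h4 : x % 30030 ≡ x [MOD 30030] := Nat.mod_modEq x 30030
    exact h4.of_dvd h2
  exact h3.trans h1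

end Pool.Agent.MP_94fdc2_nt
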