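import Pool.Agent.Lib.MP_94fdc2_nt.Base

/-! MP_94fdc2_nt: the sieve for the two linear forms. -/

set_option autoImplicit false

open Finset

namespace Pool.Agent.MP_94fdc2_nt

open Pool.Agent.SievePar

/-- the product of the two forms -/
def FF (n : ℕ) (x : ℕ) : ℤ := (((n : ℤ) - 1) * x + n) * ((n : ℤ) ^ 2 - ((n : ℤ) + 1) * x)

theorem resid (p : ℕ) [NeZero p]
    (key : ∀ n : ZMod p, ∃ r : ZMod p, ((n - 1) * r + n) * (n ^ 2 - (n + 1) * r) ≠ 0) (n : ℕ) :
    ∃ r : ℕ, ∀ x : ℕ, x ≡ r [MOD p] → ¬ (p : ℤ) ∣ FF n x := by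
  obtain ⟨r, hr⟩ := key (n : ZMod p)
  refine ⟨r.val, fun x hx hdvd => hr ?_⟩
  have h1 : ((x : ℕ) : ZMod p) = r := by
    have h2 : ((x : ℕ) : ZMod p) = ((r.val : ℕ) : ZMod p) := (ZMod.natCast_eq_natCast_iff _ _ _).mpr hx
    rw [h2, ZMod.natCast_val, ZMod.cast_id]
  have h3 : ((FF n x : ℤ) : ZMod p) = 0 := (ZMod.intCast_zmod_eq_zero_iff_dvd _ p).mpr hdvd
  unfold FF at h3
  push_cast at h3
  rw [h1] at h3
  exact h3

theorem key2 : ∀ n : ZMod 2, ∃ r : ZMod 2, ((n - 1) * r + n) * (n ^ 2 - (n + 1) * r) ≠ 0 := by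
  decide
theorem key3 : ∀ n : ZMod 3, ∃ r : ZMod 3, ((n - 1) * r + n) * (n ^ 2 - (n + 1) * r) ≠ 0 := by
  decide
theorem key5 : ∀ n : ZMod 5, ∃ r : ZMod 5, ((n - 1) * r + n) * (n ^ 2 - (n + 1) * r) ≠ 0 := by
  decide
theorem key7 : ∀ n : ZMod 7, ∃ r : ZMod 7, ((n - 1) * r + n) * (n ^ 2 - (n + 1) * r) ≠ 0 := by
  decide
theorem key11 : ∀ n : ZMod 11, ∃ r : ZMod 11, ((n - 1) * r + n) * (n ^ 2 - (n + 1) * r) ≠ 0 := by
  decide
theorem key13 : ∀ n : ZMod 13, ∃ r : ZMod 13, ((n - 1) * r + n) * (n ^ 2 - (n + 1) * r) ≠ 0 := by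
  decide

theorem small_resid (n p : ℕ) (hp : p.Prime) (h16 : p ≤ 16) :
    ∃ r : ℕ, ∀ x : ℕ, x ≡ r [MOD p] → ¬ (p : ℤ) ∣ FF n x := by
  have h0 : p ≠ 0 := hp.ne_zero
  interval_cases p
  · exact absurd rfl h0
  · exact absurd hp (by norm_num)
  · exact resid 2 key2 n
  · exact resid 3 key3 n
  · exact absurd hp (by norm_num)
  · exact resid 5 key5 n
  · exact absurd hp (by norm_num)
  · exact resid 7 key7 n
  · exact absurd hp (by norm_num)
  · exact absurd hp (by norm_num)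
  · exact absurd hp (by norm_num)
  · exact resid 11 key11 n
  · exact absurd hp (by norm_num)
  · exact resid 13 key13 n
  · exact absurd hp (by norm_num)
  · exact absurd hp (by norm_num)
  · exact absurd hp (by norm_num)

/-- a linear form `a X + b` with `a s + b`, `p ∣ a → p ∤ b`: at most one residue -/
theorem card_lin_le (p : ℕ) (hp : p.Prime) (a b : ℤ) (hab : (p : ℤ) ∣ a → ¬ (p : ℤ) ∣ b)
    (x1 : ℕ) (W : ℕ) (hW : ¬ p ∣ W) :
    ((range p).filter (fun s => (p : ℤ) ∣ a * ((x1 + W * s : ℕ) : ℤ) + b)).card ≤ 1 := by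
  classical
  rw [Finset.card_le_one]
  intro s hs t ht
  rw [Finset.mem_filter, Finset.mem_range] at hs ht
  have hpi : Prime (p : ℤ) := Nat.prime_iff_prime_int.mp hp
  have h1 : (p : ℤ) ∣ a * (W * ((s : ℤ) - t)) := by
    have h2 := dvd_sub hs.2 ht.2
    have h3 : a * ((x1 + W * s : ℕ) : ℤ) + b - (a * ((x1 + W * t : ℕ) : ℤ) + b)
        = a * (W * ((s : ℤ) - t)) := by
      push_cast
      ring
    rwa [h3] at h2
  rcases hpi.dvd_or_dvd h1 with h4 | h4
  · exfalso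
    have h5 : (p : ℤ) ∣ b := by
      have h6 : b = (a * ((x1 + W * s : ℕ) : ℤ) + b) - a * ((x1 + W * s : ℕ) : ℤ) := by ring
      rw [h6]
      exact dvd_sub hs.2 (Dvd.dvd.mul_right h4 _)
    exact hab h4 h5
  · rcases hpi.dvd_or_dvd h4 with h5 | h5
    · exact absurd (Int.natCast_dvd_natCast.mp h5) hW
    · have h6 : (s : ℤ) ≡ t [ZMOD p] := (Int.modEq_iff_dvd.mpr (by
        have : (t : ℤ) - s = -((s : ℤ) - t) := by ring
        rw [this]
        exact (dvd_neg).mpr h5))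
      have h7 : s ≡ t [MOD p] := (Int.natCast_modEq_iff).mp h6
      have h8 := Nat.ModEq.eq_of_lt_of_lt h7 hs.1 ht.1
      exact h8

/-- the set of excluded residues -/
noncomputable def SS (n x1 : ℕ) (p : ℕ) : Finset ℕ :=
  if p.Prime ∧ 16 < p then
    (range p).filter (fun s => (p : ℤ) ∣ FF n (x1 + 30030 * s)) else ∅

theorem prime_not_dvd_W (p : ℕ) (hp : p.Prime) (h16 : 16 < p) : ¬ p ∣ 30030 := by
  intro h
  have h1 : (30030 : ℕ) = 2 * 3 * 5 * 7 * 11 * 13 := by norm_num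
  rw [h1] at h
  simp only [hp.dvd_mul] at h
  rcases h with ((((h | h) | h) | h) | h) | h <;>
    · have := Nat.le_of_dvd (by norm_num) h
      omega

theorem SS_card (n x1 p : ℕ) : (SS n x1 p).card ≤ 2 := by
  classical
  unfold SS
  split_ifs with h
  · obtain ⟨hp, h16⟩ := h
    have hpi : Prime (p : ℤ) := Nat.prime_iff_prime_int.mp hp
    have hW := prime_not_dvd_W p hp h16
    have h1 := card_lin_le p hp ((n : ℤ) - 1) n (by
      intro h2 h3
      have h4 : (p : ℤ) ∣ 1 := by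
        have h5 : (1 : ℤ) = n - ((n : ℤ) - 1) := by ring
        rw [h5]
        exact dvd_sub h3 h2
      exact hpi.not_dvd_one h4) x1 30030 hW
    have h2 := card_lin_le p hp (-((n : ℤ) + 1)) ((n : ℤ) ^ 2) (by
      intro h2 h3
      have h3' := hpi.dvd_of_dvd_pow h3
      have h4 : (p : ℤ) ∣ 1 := by
        have h5 : (1 : ℤ) = -(-((n : ℤ) + 1)) - n := by ring
        rw [h5]
        exact dvd_sub ((dvd_neg).mpr h2) h3'
      exact hpi.not_dvd_one h4) x1 30030 hW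
    calc ((range p).filter (fun s => (p : ℤ) ∣ FF n (x1 + 30030 * s))).card
        ≤ (((range p).filter (fun s => (p : ℤ) ∣ ((n : ℤ) - 1) * ((x1 + 30030 * s : ℕ) : ℤ) + n)) ∪
          ((range p).filter (fun s => (p : ℤ) ∣ -((n : ℤ) + 1) * ((x1 + 30030 * s : ℕ) : ℤ)
            + (n : ℤ) ^ 2))).card := by
          apply Finset.card_le_card
          intro s hs
          rw [Finset.mem_filter] at hs
          rw [Finset.mem_union, Finset.mem_filter, Finset.mem_filter]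
          unfold FF at hs
          rcases hpi.dvd_or_dvd hs.2 with h3 | h3
          · exact Or.inl ⟨hs.1, h3⟩
          · refine Or.inr ⟨hs.1, ?_⟩
            have h4 : -((n : ℤ) + 1) * ((x1 + 30030 * s : ℕ) : ℤ) + (n : ℤ) ^ 2
              = (n : ℤ) ^ 2 - ((n : ℤ) + 1) * ((x1 + 30030 * s : ℕ) : ℤ) := by ring
            rw [h4]
            exact h3
      _ ≤ _ := Finset.card_union_le _ _
      _ ≤ 2 := by omega
  · simp

theorem FF_congr (n : ℕ) (p : ℕ) {x y : ℕ} (h : x ≡ y [MOD p]) :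
    (p : ℤ) ∣ FF n x ↔ (p : ℤ) ∣ FF n y := by
  have h1 : (x : ℤ) ≡ y [ZMOD p] := (Int.natCast_modEq_iff).mpr h
  have h2 : FF n x ≡ FF n y [ZMOD p] := by
    unfold FF
    exact ((h1.mul_left _).add_right _).mul ((h1.mul_left _).sub_left _)
  exact h2.dvd_iff

/-- For `n ≥ 30030 (2 ^ 408 + 4)` there are many `x` with `1 ≤ x < n` such that both forms have
only large prime factors. -/
theorem main (n : ℕ) (hn' : 30030 * (2 ^ 408 + 4) ≤ n) : ∃ T : Finset ℕ, n < T.card ^ 5 ∧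
    ∀ x ∈ T, 1 ≤ x ∧ x < n ∧ ∀ p : ℕ, p.Prime → (p : ℤ) ∣ FF n x → n < p ^ 833 := by
  classical
  obtain ⟨u, Y0, hu, hn, h833, hs⟩ : ∃ u Y0 : ℕ, 1 ≤ u ∧ 30030 * (Y0 + 4) ≤ n ∧ 833 = u + 17 ∧
      ∀ S : ℕ → Finset ℕ, (∀ p, S p ⊆ range p) → (∀ p, (S p).card ≤ 2) →
      (∀ p, p ≤ 16 → S p = ∅) → ∀ Y : ℕ, Y0 ≤ Y →
      ∃ z : ℕ, 2 ≤ z ∧ Y < z ^ u ∧ z ^ 204 ≤ (sv S z Y).card :=
    ⟨816, 2 ^ 408, by norm_num, hn', rfl, fun S h1 h2 h3 Y hY => sieve_len S h1 h2 h3 Y hY⟩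
  rw [h833]
  have hu816 : u + 17 ≤ 204 * 5 := by omega
  clear hn' h833
  choose! a ha using fun p hp h16 => small_resid n p hp h16
  obtain ⟨x0, hx0, hx0a⟩ := exists_base a
  obtain ⟨x1, hx1⟩ : ∃ x1, x1 = x0 + 30030 := ⟨_, rfl⟩
  obtain ⟨Y, hY⟩ : ∃ Y, Y = n / 30030 - 3 := ⟨_, rfl⟩
  have hn4 : Y0 + 4 ≤ n / 30030 := by
    rw [Nat.le_div_iff_mul_le (by norm_num)]
    linarith
  have hdiv := Nat.div_add_mod n 30030
  have hmod := Nat.mod_lt n (show 0 < 30030 by norm_num)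
  obtain ⟨z, hz2, hYz, hcard⟩ := hs (SS n x1) (fun p => by
      unfold SS
      split_ifs
      · exact Finset.filter_subset _ _
      · exact Finset.empty_subset _) (SS_card n x1) (fun p hp => by
      unfold SS
      rw [if_neg]
      omega) Y (by omega)
  have hnz : n < z ^ (u + 17) := by
    have h1 : n < 30030 * (Y + 4) := by omega
    have h2 : 2 ≤ z ^ u := by
      calc 2 = 2 ^ 1 := by norm_num
        _ ≤ z ^ 1 := Nat.pow_le_pow_left hz2 1
        _ ≤ z ^ u := Nat.pow_le_pow_right (by omega) hu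
    have h3 : 2 ^ 17 ≤ z ^ 17 := Nat.pow_le_pow_left hz2 17
    have h5 : 2 ^ 17 = 131072 := by norm_num
    calc n < 30030 * (Y + 4) := h1
      _ ≤ z ^ u * 131072 := by omega
      _ ≤ z ^ u * z ^ 17 := Nat.mul_le_mul_left _ (by omega)
      _ = z ^ (u + 17) := (pow_add _ _ _).symm
  refine ⟨(sv (SS n x1) z Y).image (fun s => x1 + 30030 * s), ?_, ?_⟩
  · rw [Finset.card_image_of_injective _ (fun s t hst => by
      have : x1 + 30030 * s = x1 + 30030 * t := hst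
      omega)]
    calc n < z ^ (u + 17) := hnz
      _ ≤ z ^ (204 * 5) := Nat.pow_le_pow_right (by omega) hu816
      _ = (z ^ 204) ^ 5 := pow_mul _ _ _
      _ ≤ _ := Nat.pow_le_pow_left hcard _
  · intro x hx
    rw [Finset.mem_image] at hx
    obtain ⟨s, hsm, rfl⟩ := hx
    rw [mem_sv] at hsm
    refine ⟨by omega, by omega, ?_⟩
    intro p hp hdvd
    have hzp : z < p := by
      by_contra hcon
      push Not at hcon
      rcases Nat.lt_or_ge 16 p with h16 | h16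
      · apply hsm.2 p hp hcon
        unfold SS
        rw [if_pos ⟨hp, h16⟩, Finset.mem_filter, Finset.mem_range]
        refine ⟨Nat.mod_lt _ hp.pos, ?_⟩
        refine (FF_congr n p ?_).mpr hdvd
        exact (Nat.ModEq.rfl).add ((Nat.mod_modEq s p).mul_left _)
      · apply ha p hp h16 _ ?_ hdvd
        have h7 : x1 + 30030 * s ≡ x0 [MOD p] := by
          have h8 : p ∣ 30030 := by
            have h0 : p ≠ 0 := hp.ne_zero
            interval_cases p <;> first | decide | (exfalso; revert hp; norm_num)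
          have h9 : x1 + 30030 * s = x0 + 30030 * (s + 1) := by
            rw [hx1]
            ring
          rw [h9]
          have h10 : 30030 * (s + 1) ≡ 0 [MOD p] :=
            (Nat.modEq_zero_iff_dvd).mpr (Dvd.dvd.mul_right h8 _)
          exact (Nat.ModEq.rfl (a := x0)).add h10
        exact h7.trans (hx0a p hp h16)
    calc n < z ^ (u + 17) := hnz
      _ ≤ p ^ (u + 17) := Nat.pow_le_pow_left hzp.le _

end Pool.Agent.MP_94fdc2_nt
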